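import Pool.Agent.J6H10.GI.Stm
import Pool.Agent.Helper7.OT.Sinc

/-!
Module GI-SINC (for helper10, MP_0575cc_nt): `∫_0^∞ (1 - cos x)/x² dx = π/2`.
-/

set_option autoImplicit false

open MeasureTheory Set Filter Topology

namespace Pool.Agent.J6H61.GI

theorem int_sinc : Integrable (fun t : ℝ => Real.sinc t ^ 2) ∧
    ∫ t in Ioi (0 : ℝ), Real.sinc t ^ 2 = Real.pi / 2 := by
  have hint : Integrable (fun t : ℝ => Real.sinc (Real.pi * t) ^ 2) :=
    Pool.Agent.Helper7.Simplex.OT.J26884.sinc_fourier_int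
  have h1 : ∫ t : ℝ, Real.sinc (Real.pi * t) ^ 2 = 1 := by
    have := (Pool.Agent.Helper7.Simplex.OT.J26884.sinc_fourier 0).2
    simpa using this
  have hint2 : Integrable (fun t : ℝ => Real.sinc t ^ 2) :=
    (integrable_comp_mul_left_iff (fun t : ℝ => Real.sinc t ^ 2) Real.pi_ne_zero).1 hint
  have h2 : ∫ t : ℝ, Real.sinc t ^ 2 = Real.pi := by
    have h := Measure.integral_comp_mul_left (fun t : ℝ => Real.sinc t ^ 2) Real.pi
    rw [h1, abs_of_pos (inv_pos.2 Real.pi_pos), smul_eq_mul] at h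
    have hpi := Real.pi_ne_zero
    field_simp at h
    linarith
  refine ⟨hint2, ?_⟩
  have h := integral_comp_abs (f := fun t : ℝ => Real.sinc t ^ 2)
  have h' : ∀ t : ℝ, Real.sinc |t| ^ 2 = Real.sinc t ^ 2 := by
    intro t
    rcases abs_choice t with ht | ht <;> rw [ht]
    rw [Real.sinc_neg]
  simp_rw [h'] at h
  rw [h2] at h
  linarith

theorem pt_eq (x : ℝ) (hx : x ∈ Ioi (0 : ℝ)) :
    (1 - Real.cos x) / x ^ 2 = 1 / 2 * Real.sinc (1 / 2 * x) ^ 2 := by
  have hx' : x ≠ 0 := ne_of_gt hx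
  have h1 : Real.cos x = 1 - 2 * Real.sin (1 / 2 * x) ^ 2 := by
    have h := Real.cos_two_mul (1 / 2 * x)
    have h2 := Real.sin_sq_add_cos_sq (1 / 2 * x)
    have h3 : 2 * (1 / 2 * x) = x := by ring
    rw [h3] at h
    linarith
  rw [Real.sinc_of_ne_zero (by positivity), h1]
  field_simp
  ring

theorem SINC : Pool.Agent.J6H10.GI.S_SINC := by
  obtain ⟨h1, h2⟩ := int_sinc
  have h3 : Integrable (fun x : ℝ => 1 / 2 * Real.sinc (1 / 2 * x) ^ 2) :=
    ((integrable_comp_mul_left_iff (fun t : ℝ => Real.sinc t ^ 2) (by norm_num : (1 / 2 : ℝ) ≠ 0)).2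
      h1).const_mul _
  refine ⟨?_, ?_⟩
  · exact (integrableOn_congr_fun (fun x hx => pt_eq x hx) measurableSet_Ioi).2 h3.integrableOn
  · rw [setIntegral_congr_fun measurableSet_Ioi (fun x hx => pt_eq x hx), integral_const_mul]
    have h4 := integral_comp_mul_left_Ioi (fun t : ℝ => Real.sinc t ^ 2) 0
      (by norm_num : (0 : ℝ) < 1 / 2)
    rw [mul_zero, h2, smul_eq_mul] at h4
    rw [h4]
    ring

end Pool.Agent.J6H61.GI
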